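import Mathlib

/-!
# Vertex elimination for strands of a Koszul complex (MP_d6b0b9_al)
The proof follows the notes of helper686.
-/

set_option autoImplicit false

namespace Pool.Agent.R778.SP

variable {V : Type*} [LinearOrder V]

/-- the sign of removing `v` from `insert v τ` -/
def eps (k : Type*) [CommRing k] (v : V) (τ : Finset V) : k := (-1) ^ (τ.filter (· < v)).card

variable {k : Type*} [CommRing k]

lemma eps_sq (v : V) (τ : Finset V) : eps k v τ * eps k v τ = 1 := by
  unfold eps
  rw [← mul_pow]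
  norm_num

lemma eps_insert_eq (u v : V) (τ : Finset V) (hv : v ∉ τ) :
    eps k u (insert v τ) = if v < u then - eps k u τ else eps k u τ := by
  unfold eps
  rw [Finset.filter_insert]
  split_ifs with h
  · rw [Finset.card_insert_of_notMem (by simp [hv]), pow_succ]
    ring
  · rfl

lemma eps_swap (u v : V) (τ : Finset V) (huv : u ≠ v) (hu : u ∉ τ) (hv : v ∉ τ) :
    eps k u (insert v τ) * eps k v (insert u τ) = - (eps k u τ * eps k v τ) := by
  rw [eps_insert_eq u v τ hv, eps_insert_eq v u τ hu]
  rcases lt_or_gt_of_ne huv with h | h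
  · rw [if_neg (not_lt.mpr h.le), if_pos h]; ring
  · rw [if_pos h, if_neg (not_lt.mpr h.le)]; ring

/-- the differential on functions of subsets of `W` -/
def dd (W : Finset V) (g : Finset V → k) (τ : Finset V) : k :=
  ∑ v ∈ W \ τ, eps k v τ * g (insert v τ)

/-- exactness in degree `i` of the strand on `W` with basis the sets satisfying `Q` -/
def Ex (k : Type*) [CommRing k] (W : Finset V) (Q : Finset V → Prop) (i : ℕ) : Prop :=
  ∀ g : Finset V → k, (∀ τ ⊆ W, τ.card + 1 = i → Q τ → dd W g τ = 0) →
    ∃ h : Finset V → k, ∀ σ ⊆ W, σ.card = i → Q σ → dd W h σ = g σ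

lemma dd_notMem (v : V) (W : Finset V) (hv : v ∉ W) (g : Finset V → k) (σ : Finset V)
    (hσ : σ ⊆ W) : dd (insert v W) g σ = eps k v σ * g (insert v σ) + dd W g σ := by
  unfold dd
  have hvσ : v ∉ σ := fun h => hv (hσ h)
  rw [Finset.insert_sdiff_of_notMem _ hvσ, Finset.sum_insert]
  intro h
  exact hv (Finset.mem_sdiff.1 h).1

lemma dd_insert (v : V) (W : Finset V) (hv : v ∉ W) (g : Finset V → k) (σ : Finset V) :
    dd (insert v W) g (insert v σ) =
      ∑ u ∈ W \ σ, eps k u (insert v σ) * g (insert u (insert v σ)) := by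
  unfold dd
  congr 1
  ext x
  simp only [Finset.mem_sdiff, Finset.mem_insert, not_or]
  constructor
  · rintro ⟨h1, h2, h3⟩
    exact ⟨h1.resolve_left h2, h3⟩
  · rintro ⟨h1, h2⟩
    exact ⟨Or.inr h1, fun h => hv (h ▸ h1), h2⟩

lemma subset_cases (v : V) (W : Finset V) (hv : v ∉ W) (σ : Finset V) (hσ : σ ⊆ insert v W) :
    σ ⊆ W ∨ ∃ σ' ⊆ W, v ∉ σ' ∧ σ = insert v σ' := by
  by_cases h : v ∈ σ
  · right
    refine ⟨σ.erase v, ?_, Finset.notMem_erase v σ, (Finset.insert_erase h).symm⟩
    intro x hx
    have h1 := Finset.mem_insert.1 (hσ (Finset.mem_of_mem_erase hx))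
    exact h1.resolve_left (Finset.ne_of_mem_erase hx)
  · left
    intro x hx
    exact (Finset.mem_insert.1 (hσ hx)).resolve_left (fun e => h (e ▸ hx))

theorem ex_congr (W : Finset V) (Q Q' : Finset V → Prop) (i : ℕ)
    (h : ∀ σ ⊆ W, (Q σ ↔ Q' σ)) (hex : Ex k W Q i) : Ex k W Q' i := by
  intro g hg
  obtain ⟨h', hh'⟩ := hex g (fun τ hτ hc hQ => hg τ hτ hc ((h τ hτ).1 hQ))
  exact ⟨h', fun σ hσ hc hQ => hh' σ hσ hc ((h σ hσ).2 hQ)⟩

theorem ex_empty (W : Finset V) (Q : Finset V → Prop) (i : ℕ)
    (h : ∀ σ ⊆ W, ¬ Q σ) : Ex k W Q i :=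
  fun _ _ => ⟨0, fun σ hσ _ hQ => absurd hQ (h σ hσ)⟩

/-- the vertex `v` is a cone point -/
theorem ex_cone (v : V) (W : Finset V) (hv : v ∉ W) (Q : Finset V → Prop) (i : ℕ)
    (hQ : ∀ σ ⊆ W, (Q σ ↔ Q (insert v σ))) : Ex k (insert v W) Q i := by
  intro g hg
  refine ⟨fun σ => if v ∈ σ then eps k v (σ.erase v) * g (σ.erase v) else 0, ?_⟩
  intro σ hσ hc hQσ
  rcases subset_cases v W hv σ hσ with h | ⟨σ', hσ', hvσ', rfl⟩
  · have hvσ : v ∉ σ := fun h' => hv (h h')
    rw [dd_notMem v W hv _ σ h]
    have h1 : dd W (fun σ => if v ∈ σ then eps k v (σ.erase v) * g (σ.erase v) else 0) σ = 0 := by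
      unfold dd
      refine Finset.sum_eq_zero fun u hu => ?_
      have huv : v ∉ insert u σ := by
        rw [Finset.mem_insert, not_or]
        refine ⟨fun e => ?_, hvσ⟩
        exact hv (e ▸ (Finset.mem_sdiff.1 hu).1)
      simp only [huv, if_false, mul_zero]
    rw [h1, add_zero]
    simp only [Finset.mem_insert_self, if_true, Finset.erase_insert hvσ]
    rw [← mul_assoc, eps_sq, one_mul]
  · rw [dd_insert v W hv]
    have hcard : (insert v σ').card = σ'.card + 1 := Finset.card_insert_of_notMem hvσ'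
    have hcyc := hg σ' (hσ'.trans (Finset.subset_insert v W)) (by omega) ((hQ σ' hσ').2 hQσ)
    rw [dd_notMem v W hv g σ' hσ'] at hcyc
    have h1 : ∀ u ∈ W \ σ', eps k u (insert v σ') * (if v ∈ insert u (insert v σ') then
        eps k v ((insert u (insert v σ')).erase v) * g ((insert u (insert v σ')).erase v) else 0) =
        - (eps k v σ') * (eps k u σ' * g (insert u σ')) := by
      intro u hu
      obtain ⟨huW, huσ⟩ := Finset.mem_sdiff.1 hu
      have huv : u ≠ v := fun e => hv (e ▸ huW)
      have h2 : (insert u (insert v σ')).erase v = insert u σ' := by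
        rw [Finset.insert_comm, Finset.erase_insert]
        rw [Finset.mem_insert, not_or]
        exact ⟨huv.symm, hvσ'⟩
      rw [if_pos (by simp), h2, ← mul_assoc, eps_swap u v σ' huv huσ hvσ']
      ring
    rw [Finset.sum_congr rfl h1, ← Finset.mul_sum]
    have h3 : ∑ u ∈ W \ σ', eps k u σ' * g (insert u σ') = - (eps k v σ' * g (insert v σ')) := by
      unfold dd at hcyc
      linear_combination hcyc
    rw [h3]
    linear_combination g (insert v σ') * eps_sq (k := k) v σ'

/-- vertex elimination -/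
theorem ex_el (v : V) (W : Finset V) (hv : v ∉ W) (Q : Finset V → Prop) (i : ℕ)
    (hup : ∀ σ ⊆ W, Q σ → Q (insert v σ))
    (h1 : Ex k W (fun σ => Q (insert v σ)) i) (h0 : Ex k W Q (i + 1)) :
    Ex k (insert v W) Q (i + 1) := by
  intro g hg
  obtain ⟨a, ha⟩ := h1 (fun σ => eps k v σ * g (insert v σ)) (by
    intro τ hτ hc hQ
    have hvτ : v ∉ τ := fun h => hv (hτ h)
    have hcard : (insert v τ).card = τ.card + 1 := Finset.card_insert_of_notMem hvτ
    have hcyc := hg (insert v τ) (Finset.insert_subset_insert v hτ) (by omega) hQ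
    rw [dd_insert v W hv] at hcyc
    unfold dd
    have h2 : ∀ u ∈ W \ τ, eps k u τ * (eps k v (insert u τ) * g (insert v (insert u τ))) =
        - (eps k v τ) * (eps k u (insert v τ) * g (insert u (insert v τ))) := by
      intro u hu
      obtain ⟨huW, huτ⟩ := Finset.mem_sdiff.1 hu
      have huv : u ≠ v := fun e => hv (e ▸ huW)
      have h3 := eps_swap (k := k) u v τ huv huτ hvτ
      have h4 := eps_sq (k := k) u τ
      have h5 := eps_sq (k := k) u (insert v τ)
      rw [Finset.insert_comm v u τ]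
      linear_combination (eps k u τ * eps k u (insert v τ) * g (insert u (insert v τ))) * h3 +
        (eps k v τ * eps k u (insert v τ) * g (insert u (insert v τ))) * (-h4) -
        (eps k v (insert u τ) * eps k u τ * g (insert u (insert v τ))) * h5
    rw [Finset.sum_congr rfl h2, ← Finset.mul_sum, hcyc, mul_zero])
  obtain ⟨b, hb⟩ := h0 (fun σ => g σ + a σ) (by
    intro τ hτ hc hQ
    have hcyc := hg τ (hτ.trans (Finset.subset_insert v W)) hc hQ
    rw [dd_notMem v W hv g τ hτ] at hcyc
    have h2 := ha τ hτ (by omega) (hup τ hτ hQ)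
    have h3 : dd W (fun σ => g σ + a σ) τ = dd W g τ + dd W a τ := by
      unfold dd
      rw [← Finset.sum_add_distrib]
      exact Finset.sum_congr rfl fun u _ => by ring
    rw [h3, h2]
    linear_combination hcyc)
  refine ⟨fun σ => if v ∈ σ then - (eps k v (σ.erase v) * a (σ.erase v)) else b σ, ?_⟩
  intro σ hσ hc hQσ
  rcases subset_cases v W hv σ hσ with h | ⟨σ', hσ', hvσ', rfl⟩
  · have hvσ : v ∉ σ := fun h' => hv (h h')
    rw [dd_notMem v W hv _ σ h]
    have h3 : dd W (fun σ => if v ∈ σ then - (eps k v (σ.erase v) * a (σ.erase v)) else b σ) σ =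
        dd W b σ := by
      unfold dd
      refine Finset.sum_congr rfl fun u hu => ?_
      have huv : v ∉ insert u σ := by
        rw [Finset.mem_insert, not_or]
        refine ⟨fun e => ?_, hvσ⟩
        exact hv (e ▸ (Finset.mem_sdiff.1 hu).1)
      simp only [huv, if_false]
    rw [h3, hb σ h hc hQσ]
    simp only [Finset.mem_insert_self, if_true, Finset.erase_insert hvσ]
    linear_combination (- a σ) * eps_sq (k := k) v σ
  · rw [dd_insert v W hv]
    have hcard : (insert v σ').card = σ'.card + 1 := Finset.card_insert_of_notMem hvσ'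
    have h3 := ha σ' hσ' (by omega) hQσ
    have h4 : ∀ u ∈ W \ σ', eps k u (insert v σ') * (if v ∈ insert u (insert v σ') then
        - (eps k v ((insert u (insert v σ')).erase v) * a ((insert u (insert v σ')).erase v))
          else b (insert u (insert v σ'))) =
        (eps k v σ') * (eps k u σ' * a (insert u σ')) := by
      intro u hu
      obtain ⟨huW, huσ⟩ := Finset.mem_sdiff.1 hu
      have huv : u ≠ v := fun e => hv (e ▸ huW)
      have h2 : (insert u (insert v σ')).erase v = insert u σ' := by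
        rw [Finset.insert_comm, Finset.erase_insert]
        rw [Finset.mem_insert, not_or]
        exact ⟨huv.symm, hvσ'⟩
      rw [if_pos (by simp), h2]
      have h5 := eps_swap (k := k) u v σ' huv huσ hvσ'
      linear_combination (- a (insert u σ')) * h5
    rw [Finset.sum_congr rfl h4, ← Finset.mul_sum]
    unfold dd at h3
    rw [h3]
    linear_combination g (insert v σ') * eps_sq (k := k) v σ'

end Pool.Agent.R778.SP
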