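import Pool.Agent.R778.SP.Rank

/-!
# From the strands to the Koszul complex (MP_d6b0b9_al)
-/

set_option autoImplicit false

namespace Pool.Agent.R778.SP

open MvPolynomial

/-- The differential of the Koszul complex `K(x_1, …, x_n; R/J)`. A chain of degree `i` is a
function on the subsets of `[n]` which vanishes off the subsets with `i` elements (its value at `σ`
is the coefficient of `e_σ`). -/
noncomputable def kd {n : ℕ} {k : Type*} [Field k] (J : Ideal (MvPolynomial (Fin n) k))
    (c : Finset (Fin n) → MvPolynomial (Fin n) k ⧸ J) :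
    Finset (Fin n) → MvPolynomial (Fin n) k ⧸ J :=
  fun τ => ∑ v ∈ Finset.univ \ τ,
    eps (MvPolynomial (Fin n) k ⧸ J) v τ * (Ideal.Quotient.mk J (X v) * c (insert v τ))

/-- `H_i(x_1, …, x_n; R/J) = Tor_i(R/J, k)` vanishes. -/
def TorZero {n : ℕ} {k : Type*} [Field k] (J : Ideal (MvPolynomial (Fin n) k)) (i : ℕ) : Prop :=
  ∀ c : Finset (Fin n) → MvPolynomial (Fin n) k ⧸ J, (∀ σ, σ.card ≠ i → c σ = 0) → kd J c = 0 →
    ∃ b : Finset (Fin n) → MvPolynomial (Fin n) k ⧸ J, (∀ σ, σ.card ≠ i + 1 → b σ = 0) ∧ kd J b = c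

/-- The part of degree `j` of `H_i(x_1, …, x_n; R/J) = Tor_i(R/J, k)` vanishes (`e_σ` has degree
`|σ|`, so that the coefficients of a chain of homological degree `i` and of internal degree `j` are
the classes of forms of degree `j - i`). -/
def TorZeroDeg {n : ℕ} {k : Type*} [Field k] (J : Ideal (MvPolynomial (Fin n) k)) (i j : ℕ) :
    Prop :=
  ∀ c : Finset (Fin n) → MvPolynomial (Fin n) k ⧸ J, (∀ σ, σ.card ≠ i → c σ = 0) →
    (∀ σ, ∃ m : ℕ, m + i = j ∧ ∃ p : MvPolynomial (Fin n) k, p.IsHomogeneous m ∧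
      c σ = Ideal.Quotient.mk J p) → kd J c = 0 →
    ∃ b : Finset (Fin n) → MvPolynomial (Fin n) k ⧸ J, (∀ σ, σ.card ≠ i + 1 → b σ = 0) ∧ kd J b = c

variable {n : ℕ} {k : Type*} [Field k]

/-- the exponent `1_σ` -/
noncomputable def on (σ : Finset (Fin n)) : Fin n →₀ ℕ :=
  Finsupp.equivFunOnFinite.symm fun v => if v ∈ σ then 1 else 0

lemma on_apply (σ : Finset (Fin n)) (v : Fin n) : on σ v = if v ∈ σ then 1 else 0 := rfl

lemma on_sum (σ : Finset (Fin n)) : ∑ v, on σ v = σ.card := by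
  simp only [on_apply]
  rw [Finset.sum_ite_mem, Finset.univ_inter, Finset.sum_const, smul_eq_mul, mul_one]

lemma sub_on (α : Fin n →₀ ℕ) (σ : Finset (Fin n)) : ⇑(α - on σ) = sb ⇑α σ := by
  funext v
  rw [Finsupp.tsub_apply, on_apply]
  rfl

lemma sub_on_insert (α : Fin n →₀ ℕ) (v : Fin n) (τ : Finset (Fin n)) (hv : v ∉ τ) :
    α - on τ - Finsupp.single v 1 = α - on (insert v τ) := by
  ext w
  simp only [Finsupp.tsub_apply, on_apply, Finset.mem_insert, Finsupp.single_apply]
  by_cases hw : w = v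
  · subst hw; simp [hv]
  · have : ¬ v = w := fun e => hw e.symm
    simp [hw, this]

lemma mem_spt {α : Fin n →₀ ℕ} {v : Fin n} : v ∈ spt ⇑α ↔ α v ≠ 0 := by
  simp [spt]

lemma eps_C (v : Fin n) (τ : Finset (Fin n)) :
    eps (MvPolynomial (Fin n) k) v τ = C (eps k v τ) := by
  unfold eps
  simp

lemma coeff_term (β : Fin n →₀ ℕ) (v : Fin n) (τ : Finset (Fin n)) (p : MvPolynomial (Fin n) k) :
    coeff β (eps (MvPolynomial (Fin n) k) v τ * (X v * p)) =
      eps k v τ * (if β v ≠ 0 then coeff (β - Finsupp.single v 1) p else 0) := by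
  rw [eps_C, coeff_C_mul, coeff_X_mul']
  simp only [Finsupp.mem_support_iff]

/-- the lifting of exactness of the strands -/
theorem lift_strands (J : Ideal (MvPolynomial (Fin n) k)) (P : (Fin n → ℕ) → Prop)
    (hJ : ∀ f : MvPolynomial (Fin n) k, f ∈ J ↔ ∀ m ∈ f.support, P m) (i : ℕ)
    (S : Set (Fin n →₀ ℕ))
    (hEx : ∀ α ∈ S, Ex k (spt ⇑α) (fun σ => ¬ P (sb ⇑α σ)) i)
    (f : Finset (Fin n) → MvPolynomial (Fin n) k)
    (hS : ∀ σ, σ.card = i → ∀ m ∈ (f σ).support, m + on σ ∈ S)
    (hcyc : ∀ τ, ∑ v ∈ Finset.univ \ τ,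
      eps (MvPolynomial (Fin n) k) v τ * (X v * f (insert v τ)) ∈ J) :
    ∃ b : Finset (Fin n) → MvPolynomial (Fin n) k, (∀ τ, τ.card ≠ i + 1 → b τ = 0) ∧
      ∀ σ, σ.card = i → (∑ v ∈ Finset.univ \ σ,
        eps (MvPolynomial (Fin n) k) v σ * (X v * b (insert v σ))) - f σ ∈ J := by
  classical
  -- the strands
  have hstr : ∀ α : Fin n →₀ ℕ, ∃ h : Finset (Fin n) → k, α ∈ S →
      ∀ σ ⊆ spt ⇑α, σ.card = i → ¬ P (sb ⇑α σ) → dd (spt ⇑α) h σ = coeff (α - on σ) (f σ) := by
    intro α
    by_cases hα : α ∈ S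
    · obtain ⟨h, hh⟩ := hEx α hα (fun σ => coeff (α - on σ) (f σ)) (by
        intro τ hτ hc hQ
        have h1 := hcyc τ
        rw [hJ] at h1
        have h2 : coeff (α - on τ) (∑ v ∈ Finset.univ \ τ,
            eps (MvPolynomial (Fin n) k) v τ * (X v * f (insert v τ))) = 0 := by
          by_contra hne
          have h3 := h1 _ (MvPolynomial.mem_support_iff.2 hne)
          rw [sub_on] at h3
          exact hQ h3
        rw [coeff_sum] at h2
        rw [← h2]
        unfold dd
        have hsub : spt ⇑α \ τ ⊆ Finset.univ \ τ :=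
          Finset.sdiff_subset_sdiff (Finset.subset_univ _) (Finset.Subset.refl _)
        rw [← Finset.sum_subset hsub]
        · refine Finset.sum_congr rfl fun v hv => ?_
          obtain ⟨hv1, hv2⟩ := Finset.mem_sdiff.1 hv
          have h4 : (α - on τ) v ≠ 0 := by
            rw [Finsupp.tsub_apply, on_apply, if_neg hv2]
            exact mem_spt.1 hv1
          rw [coeff_term, if_pos h4, sub_on_insert α v τ hv2]
        · intro v _ hv
          have hv2 : v ∉ τ := (Finset.mem_sdiff.1 ‹v ∈ Finset.univ \ τ›).2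
          have hv3 : v ∉ spt ⇑α := fun h => hv (Finset.mem_sdiff.2 ⟨h, hv2⟩)
          have h4 : (α - on τ) v = 0 := by
            rw [Finsupp.tsub_apply, on_apply, if_neg hv2]
            by_contra h
            exact hv3 (mem_spt.2 h)
          rw [coeff_term, if_neg (by simp [h4]), mul_zero])
      exact ⟨h, fun _ => hh⟩
    · exact ⟨0, fun h => absurd h hα⟩
  choose h hh using hstr
  let A : Finset (Fin n →₀ ℕ) := Finset.univ.biUnion fun σ : Finset (Fin n) =>
    if σ.card = i then (f σ).support.image (· + on σ) else ∅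
  have hAmem : ∀ α, α ∈ A ↔ ∃ σ : Finset (Fin n), σ.card = i ∧ ∃ m ∈ (f σ).support, m + on σ = α := by
    intro α
    simp only [A, Finset.mem_biUnion, Finset.mem_univ, true_and]
    constructor
    · rintro ⟨σ, hσ⟩
      by_cases hc : σ.card = i
      · rw [if_pos hc, Finset.mem_image] at hσ
        exact ⟨σ, hc, hσ⟩
      · rw [if_neg hc] at hσ
        exact absurd hσ (Finset.notMem_empty _)
    · rintro ⟨σ, hc, m, hm, rfl⟩
      exact ⟨σ, by rw [if_pos hc]; exact Finset.mem_image_of_mem _ hm⟩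
  have hAS : ∀ α ∈ A, α ∈ S := by
    intro α hα
    obtain ⟨σ, hc, m, hm, rfl⟩ := (hAmem α).1 hα
    exact hS σ hc m hm
  refine ⟨fun τ => if τ.card = i + 1 then ∑ α ∈ A,
    (if τ ⊆ spt ⇑α then monomial (α - on τ) (h α τ) else 0) else 0, fun τ hτ => if_neg hτ, ?_⟩
  intro σ hσ
  rw [hJ]
  intro β hβ
  by_contra hP
  rw [MvPolynomial.mem_support_iff] at hβ
  apply hβ
  rw [coeff_sub, coeff_sum]
  set α0 : Fin n →₀ ℕ := β + on σ with hα0
  have hβ0 : α0 - on σ = β := by rw [hα0]; exact add_tsub_cancel_right _ _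
  have hsb : sb ⇑α0 σ = ⇑β := by rw [← sub_on, hβ0]
  have hσ0 : σ ⊆ spt ⇑α0 := by
    intro v hv
    rw [mem_spt, hα0, Finsupp.add_apply, on_apply, if_pos hv]
    omega
  have hterm : ∀ v ∈ Finset.univ \ σ, coeff β (eps (MvPolynomial (Fin n) k) v σ * (X v *
      (if (insert v σ).card = i + 1 then ∑ α ∈ A,
        (if insert v σ ⊆ spt ⇑α then monomial (α - on (insert v σ)) (h α (insert v σ)) else 0)
        else 0))) = if v ∈ spt ⇑α0 \ σ then (if α0 ∈ A then eps k v σ * h α0 (insert v σ) else 0)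
          else 0 := by
    intro v hv
    have hvσ : v ∉ σ := (Finset.mem_sdiff.1 hv).2
    have hcard : (insert v σ).card = i + 1 := by
      rw [Finset.card_insert_of_notMem hvσ, hσ]
    rw [if_pos hcard, coeff_term]
    by_cases hβv : β v ≠ 0
    · have hv0 : v ∈ spt ⇑α0 \ σ := by
        refine Finset.mem_sdiff.2 ⟨?_, hvσ⟩
        rw [mem_spt, hα0, Finsupp.add_apply]
        omega
      rw [if_pos hβv, if_pos hv0, coeff_sum]
      have h5 : ∀ α ∈ A, coeff (β - Finsupp.single v 1) (if insert v σ ⊆ spt ⇑α then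
          monomial (α - on (insert v σ)) (h α (insert v σ)) else 0) =
          if α = α0 then h α (insert v σ) else 0 := by
        intro α _
        by_cases h6 : α = α0
        · subst h6
          have h7 : insert v σ ⊆ spt ⇑α0 :=
            Finset.insert_subset (Finset.mem_sdiff.1 hv0).1 hσ0
          rw [if_pos h7, if_pos rfl, coeff_monomial, if_pos]
          rw [hα0]
          ext w
          simp only [Finsupp.tsub_apply, Finsupp.add_apply, on_apply, Finset.mem_insert,
            Finsupp.single_apply]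
          by_cases hw : w = v
          · subst hw; simp [hvσ]
          · have : ¬ v = w := fun e => hw e.symm
            simp [hw, this]
        · rw [if_neg h6]
          split_ifs with h7
          · rw [coeff_monomial, if_neg]
            intro h8
            apply h6
            rw [hα0]
            ext w
            have h9 := DFunLike.congr_fun h8 w
            simp only [Finsupp.tsub_apply, Finsupp.add_apply, on_apply, Finset.mem_insert,
              Finsupp.single_apply] at h9 ⊢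
            by_cases hw : w = v
            · subst hw
              have h10 := mem_spt.1 (h7 (Finset.mem_insert_self w σ))
              simp only [true_or, if_true, hvσ, if_false] at h9 ⊢
              omega
            · have hwv : ¬ v = w := fun e => hw e.symm
              simp only [hw, false_or, hwv, if_false] at h9
              by_cases hwσ : w ∈ σ
              · have h10 := mem_spt.1 (h7 (Finset.mem_insert_of_mem hwσ))
                simp only [hwσ, if_true] at h9 ⊢
                omega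
              · simp only [hwσ, if_false] at h9 ⊢
                omega
          · simp
      rw [Finset.sum_congr rfl h5, Finset.sum_ite_eq']
      split_ifs
      · rfl
      · rw [mul_zero]
    · push Not at hβv
      have hv0 : v ∉ spt ⇑α0 \ σ := by
        intro h6
        have h7 := mem_spt.1 (Finset.mem_sdiff.1 h6).1
        rw [hα0, Finsupp.add_apply, on_apply, if_neg hvσ, hβv] at h7
        exact h7 rfl
      rw [if_neg (by simp [hβv]), if_neg hv0, mul_zero]
  rw [Finset.sum_congr rfl hterm, Finset.sum_ite_mem]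
  have hinter : (Finset.univ \ σ) ∩ (spt ⇑α0 \ σ) = spt ⇑α0 \ σ := by
    rw [Finset.inter_eq_right]
    exact Finset.sdiff_subset_sdiff (Finset.subset_univ _) (Finset.Subset.refl _)
  rw [hinter]
  by_cases hA : α0 ∈ A
  · simp only [hA, if_true]
    have h6 := hh α0 (hAS α0 hA) σ hσ0 hσ (by rw [hsb]; exact hP)
    rw [hβ0] at h6
    unfold dd at h6
    rw [h6, sub_self]
  · simp only [hA, if_false, Finset.sum_const_zero, zero_sub, neg_eq_zero]
    by_contra hne
    exact hA ((hAmem α0).2 ⟨σ, hσ, β, MvPolynomial.mem_support_iff.2 hne, rfl⟩)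

theorem eps_mk (J : Ideal (MvPolynomial (Fin n) k)) (v : Fin n) (τ : Finset (Fin n)) :
    Ideal.Quotient.mk J (eps (MvPolynomial (Fin n) k) v τ) =
      eps (MvPolynomial (Fin n) k ⧸ J) v τ := by
  unfold eps
  simp

theorem kd_mk (J : Ideal (MvPolynomial (Fin n) k)) (f : Finset (Fin n) → MvPolynomial (Fin n) k)
    (τ : Finset (Fin n)) : kd J (fun σ => Ideal.Quotient.mk J (f σ)) τ =
      Ideal.Quotient.mk J (∑ v ∈ Finset.univ \ τ,
        eps (MvPolynomial (Fin n) k) v τ * (X v * f (insert v τ))) := by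
  unfold kd
  rw [map_sum]
  refine Finset.sum_congr rfl fun v _ => ?_
  rw [map_mul, map_mul, eps_mk]

/-- from polynomial lifts to the quotient -/
theorem quotient_step (J : Ideal (MvPolynomial (Fin n) k)) (P : (Fin n → ℕ) → Prop)
    (hJ : ∀ f : MvPolynomial (Fin n) k, f ∈ J ↔ ∀ m ∈ f.support, P m) (i : ℕ)
    (S : Set (Fin n →₀ ℕ))
    (hEx : ∀ α ∈ S, Ex k (spt ⇑α) (fun σ => ¬ P (sb ⇑α σ)) i)
    (c : Finset (Fin n) → MvPolynomial (Fin n) k ⧸ J) (hc : ∀ σ, σ.card ≠ i → c σ = 0)
    (f : Finset (Fin n) → MvPolynomial (Fin n) k) (hf : ∀ σ, c σ = Ideal.Quotient.mk J (f σ))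
    (hS : ∀ σ, σ.card = i → ∀ m ∈ (f σ).support, m + on σ ∈ S) (hcyc : kd J c = 0) :
    ∃ b : Finset (Fin n) → MvPolynomial (Fin n) k ⧸ J, (∀ σ, σ.card ≠ i + 1 → b σ = 0) ∧
      kd J b = c := by
  have hcf : c = fun σ => Ideal.Quotient.mk J (f σ) := funext hf
  obtain ⟨b, hb1, hb2⟩ := lift_strands J P hJ i S hEx f hS (by
    intro τ
    rw [← Ideal.Quotient.eq_zero_iff_mem, ← kd_mk, ← hcf, hcyc]
    rfl)
  refine ⟨fun σ => Ideal.Quotient.mk J (b σ), fun σ hσ => by
    show Ideal.Quotient.mk J (b σ) = 0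
    rw [hb1 σ hσ, map_zero], ?_⟩
  funext σ
  rw [kd_mk]
  by_cases hσ : σ.card = i
  · rw [hf σ, ← sub_eq_zero, ← map_sub, Ideal.Quotient.eq_zero_iff_mem]
    exact hb2 σ hσ
  · rw [hc σ hσ]
    rw [Finset.sum_eq_zero, map_zero]
    intro v hv
    have hvσ : v ∉ σ := (Finset.mem_sdiff.1 hv).2
    rw [hb1 (insert v σ) (by rw [Finset.card_insert_of_notMem hvσ]; omega), mul_zero, mul_zero]

theorem torZero_of_ex (J : Ideal (MvPolynomial (Fin n) k)) (P : (Fin n → ℕ) → Prop)
    (hJ : ∀ f : MvPolynomial (Fin n) k, f ∈ J ↔ ∀ m ∈ f.support, P m) (i : ℕ)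
    (hEx : ∀ α : Fin n → ℕ, Ex k (spt α) (fun σ => ¬ P (sb α σ)) i) : TorZero J i := by
  intro c hc hcyc
  choose f hf using fun σ => Ideal.Quotient.mk_surjective (c σ)
  exact quotient_step J P hJ i Set.univ (fun α _ => hEx α) c hc f (fun σ => (hf σ).symm)
    (fun _ _ _ _ => Set.mem_univ _) hcyc

theorem torZeroDeg_of_ex (J : Ideal (MvPolynomial (Fin n) k)) (P : (Fin n → ℕ) → Prop)
    (hJ : ∀ f : MvPolynomial (Fin n) k, f ∈ J ↔ ∀ m ∈ f.support, P m) (i j : ℕ)
    (hEx : ∀ α : Fin n → ℕ, ∑ v, α v = j → Ex k (spt α) (fun σ => ¬ P (sb α σ)) i) :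
    TorZeroDeg J i j := by
  intro c hc hdeg hcyc
  choose m hm f hfh hf using hdeg
  refine quotient_step J P hJ i {α | ∑ v, α v = j} (fun α hα => hEx α hα) c hc f hf ?_ hcyc
  intro σ hσ β hβ
  show ∑ v, (β + on σ) v = j
  have h1 := hfh σ (MvPolynomial.mem_support_iff.1 hβ)
  have h2 : (Finsupp.weight 1) β = ∑ v, β v := by
    have h5 := DFunLike.congr_fun (Finsupp.degree_eq_weight_one (R := ℕ) (σ := Fin n)) β
    rw [Finsupp.degree_eq_sum] at h5
    exact h5.symm
  rw [h2] at h1
  have h3 := hm σ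
  have h4 := on_sum σ
  simp only [Finsupp.add_apply, Finset.sum_add_distrib]
  omega

end Pool.Agent.R778.SP
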