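import Pool.Agent.R778.SP.Kos

/-!
# The second symbolic power of the Stanley–Reisner ideal of a matroid (MP_d6b0b9_al)
-/

set_option autoImplicit false

namespace Pool.Agent.R778.SP

open MvPolynomial

/-- The Stanley–Reisner ideal of the independence complex of `M`. -/
noncomputable def srIdeal {n : ℕ} (k : Type*) [Field k] (M : Matroid (Fin n)) :
    Ideal (MvPolynomial (Fin n) k) :=
  Ideal.span {p | ∃ F : Finset (Fin n), ¬ M.Indep (F : Set (Fin n)) ∧ p = ∏ i ∈ F, X i}

/-- The `m`-th symbolic power `⋂ p ^ m` (over the minimal primes `p` of `I`) of a squarefree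
monomial ideal `I`. -/
noncomputable def symbPow {n : ℕ} {k : Type*} [Field k] (I : Ideal (MvPolynomial (Fin n) k))
    (m : ℕ) : Ideal (MvPolynomial (Fin n) k) := ⨅ p ∈ I.minimalPrimes, p ^ m

/-- `R/J` is Cohen–Macaulay and level: with `c` the height of `J`, `Tor_i(R/J, k) = 0` for `i > c`
and `Tor_c(R/J, k)` is concentrated in one degree `j0`. -/
def IsLevel {n : ℕ} {k : Type*} [Field k] (J : Ideal (MvPolynomial (Fin n) k)) : Prop :=
  ∃ c j0 : ℕ, J.height = c ∧ (∀ i, c < i → TorZero J i) ∧ ∀ j, j ≠ j0 → TorZeroDeg J c j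

variable {n : ℕ} {k : Type*} [Field k]

/-! ### ideals generated by variables -/

/-- the ideal generated by the variables in `B` -/
noncomputable def pB (k : Type*) [Field k] (B : Finset (Fin n)) : Ideal (MvPolynomial (Fin n) k) :=
  Ideal.span (X '' (B : Set (Fin n)))

lemma X_mem_pB (B : Finset (Fin n)) (i : Fin n) : (X i : MvPolynomial (Fin n) k) ∈ pB k B ↔ i ∈ B := by
  unfold pB
  rw [mem_ideal_span_X_image]
  constructor
  · intro h
    obtain ⟨j, hj, hj2⟩ := h (Finsupp.single i 1) (by simp [MvPolynomial.mem_support_iff])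
    by_cases hij : i = j
    · rw [hij]; exact hj
    · exact absurd (Finsupp.single_eq_of_ne (Ne.symm hij)) hj2
  · intro h m hm
    rw [MvPolynomial.mem_support_iff, coeff_X] at hm
    refine ⟨i, h, ?_⟩
    by_cases h2 : Finsupp.single i 1 = m
    · rw [← h2]; simp
    · rw [if_neg h2] at hm; exact absurd rfl hm

theorem pB_prime (B : Finset (Fin n)) : (pB k B).IsPrime := by
  let φ : MvPolynomial (Fin n) k →ₐ[k] MvPolynomial (Fin n) k :=
    aeval fun i => if i ∈ B then 0 else X i
  have h1 : (Ideal.Quotient.mkₐ k (pB k B)).comp φ = Ideal.Quotient.mkₐ k (pB k B) := by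
    apply MvPolynomial.algHom_ext
    intro i
    simp only [AlgHom.comp_apply, φ, aeval_X]
    by_cases hi : i ∈ B
    · rw [if_pos hi, map_zero]
      symm
      exact Ideal.Quotient.eq_zero_iff_mem.2 ((X_mem_pB B i).2 hi)
    · rw [if_neg hi]
  have h2 : pB k B = RingHom.ker (φ : MvPolynomial (Fin n) k →+* MvPolynomial (Fin n) k) := by
    apply le_antisymm
    · unfold pB
      rw [Ideal.span_le]
      rintro _ ⟨i, hi, rfl⟩
      rw [SetLike.mem_coe, RingHom.mem_ker]
      show φ (X i) = 0
      simp only [φ, aeval_X]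
      rw [if_pos (by exact_mod_cast hi)]
    · intro f hf
      rw [RingHom.mem_ker] at hf
      have h3 := DFunLike.congr_fun h1 f
      rw [AlgHom.comp_apply] at h3
      have h4 : φ f = 0 := hf
      rw [h4, map_zero] at h3
      exact Ideal.Quotient.eq_zero_iff_mem.1 h3.symm
  rw [h2]
  exact RingHom.ker_isPrime _

lemma pB_le_iff (A B : Finset (Fin n)) : pB k A ≤ pB k B ↔ A ⊆ B := by
  constructor
  · intro h i hi
    exact (X_mem_pB B i).1 (h ((X_mem_pB A i).2 hi))
  · intro h
    exact Ideal.span_mono (Set.image_mono (by exact_mod_cast h))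

theorem pB_height (B : Finset (Fin n)) : (pB k B).height = B.card := by
  apply le_antisymm
  · have h1 : pB k B ∈ (Ideal.span (X '' (B : Set (Fin n)) : Set (MvPolynomial (Fin n) k))).minimalPrimes := by
      have := pB_prime (k := k) B
      rw [show Ideal.span (X '' (B : Set (Fin n)) : Set (MvPolynomial (Fin n) k)) = pB k B from rfl,
        Ideal.minimalPrimes_eq_subsingleton_self]
      exact Set.mem_singleton _
    have h2 := Ideal.height_le_card_of_mem_minimalPrimes_span
      ((B.finite_toSet).image (X : Fin n → MvPolynomial (Fin n) k)) h1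
    refine h2.trans ?_
    have h3 := Set.ncard_image_le (f := (X : Fin n → MvPolynomial (Fin n) k)) B.finite_toSet
    rw [Set.ncard_coe_finset] at h3
    exact_mod_cast h3
  · induction B using Finset.induction_on with
    | empty => simp
    | insert a s ha ih =>
      rw [Finset.card_insert_of_notMem ha]
      have h1 := pB_prime (k := k) s
      have h2 := pB_prime (k := k) (insert a s)
      have hlt : pB k s < pB k (insert a s) := by
        rw [lt_iff_le_not_ge]
        rw [pB_le_iff, pB_le_iff]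
        exact ⟨Finset.subset_insert a s, fun h => ha (h (Finset.mem_insert_self a s))⟩
      have h3 := Ideal.height_add_one_le_of_lt_of_isPrime hlt
      refine le_trans ?_ h3
      push_cast
      gcongr

theorem mem_pB_sq (B : Finset (Fin n)) (f : MvPolynomial (Fin n) k) :
    f ∈ pB k B ^ 2 ↔ ∀ m ∈ f.support, 2 ≤ ∑ i ∈ B, m i := by
  have h1 : pB k B ^ 2 = Ideal.span ((fun s => monomial s (1 : k)) ''
      {s | ∃ i ∈ B, ∃ j ∈ B, s = Finsupp.single i 1 + Finsupp.single j 1}) := by
    rw [sq, pB, Ideal.span_mul_span']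
    congr 1
    ext p
    simp only [Set.mem_mul, Set.mem_image, Finset.mem_coe, Set.mem_ofPred_eq]
    constructor
    · rintro ⟨_, ⟨i, hi, rfl⟩, _, ⟨j, hj, rfl⟩, rfl⟩
      refine ⟨_, ⟨i, hi, j, hj, rfl⟩, ?_⟩
      rw [X, X, monomial_mul, one_mul]
    · rintro ⟨_, ⟨i, hi, j, hj, rfl⟩, rfl⟩
      refine ⟨X i, ⟨i, hi, rfl⟩, X j, ⟨j, hj, rfl⟩, ?_⟩
      rw [X, X, monomial_mul, one_mul]
  rw [h1, mem_ideal_span_monomial_image]
  refine forall₂_congr fun m _ => ?_
  constructor
  · rintro ⟨_, ⟨i, hi, j, hj, rfl⟩, hle⟩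
    have h2 : ∀ i ∈ B, ∑ l ∈ B, (Finsupp.single i 1 : Fin n →₀ ℕ) l = 1 := by
      intro i hi
      rw [Finset.sum_eq_single i]
      · simp
      · intro b _ hb
        exact Finsupp.single_eq_of_ne hb
      · intro h; exact absurd hi h
    calc 2 = ∑ l ∈ B, (Finsupp.single i 1 + Finsupp.single j 1 : Fin n →₀ ℕ) l := by
          simp only [Finsupp.add_apply, Finset.sum_add_distrib]
          rw [h2 i hi, h2 j hj]
      _ ≤ ∑ l ∈ B, m l := Finset.sum_le_sum fun l _ => hle l
  · intro h
    obtain ⟨i, hi, hi1⟩ : ∃ i ∈ B, 1 ≤ m i := by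
      by_contra hcon
      push Not at hcon
      have : ∑ i ∈ B, m i = 0 := Finset.sum_eq_zero fun i hi => by have := hcon i hi; omega
      omega
    by_cases hi2 : 2 ≤ m i
    · refine ⟨_, ⟨i, hi, i, hi, rfl⟩, ?_⟩
      intro l
      rw [Finsupp.add_apply, Finsupp.single_apply]
      split_ifs with h
      · rw [← h]; omega
      · omega
    · obtain ⟨j, hj, hji, hj1⟩ : ∃ j ∈ B, j ≠ i ∧ 1 ≤ m j := by
        by_contra hcon
        push Not at hcon
        have h3 : ∑ l ∈ B, m l = m i := by
          refine Finset.sum_eq_single i (fun b hb hbi => ?_) (fun h => absurd hi h)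
          have := hcon b hb hbi
          omega
        omega
      refine ⟨_, ⟨i, hi, j, hj, rfl⟩, ?_⟩
      intro l
      rw [Finsupp.add_apply, Finsupp.single_apply, Finsupp.single_apply]
      by_cases h4 : i = l
      · subst h4
        rw [if_pos rfl, if_neg hji]; omega
      · by_cases h5 : j = l
        · subst h5
          rw [if_neg h4, if_pos rfl]; omega
        · rw [if_neg h4, if_neg h5]; omega

/-! ### the minimal primes -/

theorem exists_base_of_prime (M : Matroid (Fin n)) (hE : M.E = Set.univ)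
    (p : Ideal (MvPolynomial (Fin n) k)) (hp : p.IsPrime) (hle : srIdeal k M ≤ p) :
    ∃ B : Finset (Fin n), M.dual.IsBase (B : Set (Fin n)) ∧ pB k B ≤ p := by
  classical
  let S : Finset (Fin n) := Finset.univ.filter fun i => (X i : MvPolynomial (Fin n) k) ∉ p
  have hS : M.Indep (S : Set (Fin n)) := by
    by_contra hcon
    have h1 : (∏ i ∈ S, X i : MvPolynomial (Fin n) k) ∈ p :=
      hle (Ideal.subset_span ⟨S, hcon, rfl⟩)
    obtain ⟨i, hi, hi2⟩ := (hp.prod_mem_iff).1 h1
    exact (Finset.mem_filter.1 hi).2 hi2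
  obtain ⟨B', hB', hSB'⟩ := hS.exists_isBase_superset
  have hdual := hB'.compl_isBase_dual
  rw [hE] at hdual
  have hfin : (Set.univ \ B').Finite := Set.toFinite _
  refine ⟨hfin.toFinset, by rw [hfin.coe_toFinset]; exact hdual, ?_⟩
  unfold pB
  rw [Ideal.span_le]
  rintro _ ⟨i, hi, rfl⟩
  rw [hfin.coe_toFinset] at hi
  by_contra hcon
  exact hi.2 (hSB' (Finset.mem_filter.2 ⟨Finset.mem_univ _, hcon⟩))

theorem srIdeal_le (M : Matroid (Fin n)) (hE : M.E = Set.univ) (B : Finset (Fin n))
    (hB : M.dual.IsBase (B : Set (Fin n))) : srIdeal k M ≤ pB k B := by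
  unfold srIdeal
  rw [Ideal.span_le]
  rintro _ ⟨F, hF, rfl⟩
  have hB2 : M.IsBase (M.E \ (B : Set (Fin n))) := by
    have := hB.compl_isBase_of_dual
    exact this
  have hex : ∃ i ∈ F, i ∈ B := by
    by_contra hcon
    push Not at hcon
    apply hF
    refine hB2.indep.subset fun i hi => ⟨by rw [hE]; trivial, fun hiB => hcon i hi hiB⟩
  obtain ⟨i, hiF, hiB⟩ := hex
  have := pB_prime (k := k) B
  rw [SetLike.mem_coe, this.prod_mem_iff]
  exact ⟨i, hiF, (X_mem_pB B i).2 hiB⟩

theorem pB_mem_minimalPrimes (M : Matroid (Fin n)) (hE : M.E = Set.univ) (B : Finset (Fin n))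
    (hB : M.dual.IsBase (B : Set (Fin n))) : pB k B ∈ (srIdeal k M).minimalPrimes := by
  refine ⟨⟨pB_prime B, srIdeal_le M hE B hB⟩, ?_⟩
  rintro q ⟨hq, hq2⟩ hle
  obtain ⟨B', hB', hle'⟩ := exists_base_of_prime M hE q hq hq2
  have h1 : B' ⊆ B := (pB_le_iff (k := k) B' B).1 (hle'.trans hle)
  have h2 : (B' : Set (Fin n)) = B := hB'.eq_of_subset_isBase hB (by exact_mod_cast h1)
  have h3 : B' = B := by exact_mod_cast h2
  rw [← h3]
  exact hle'

theorem mem_symb (M : Matroid (Fin n)) (hE : M.E = Set.univ) (f : MvPolynomial (Fin n) k) :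
    f ∈ symbPow (srIdeal k M) 2 ↔
      ∀ m ∈ f.support, ∀ B : Finset (Fin n), M.dual.IsBase (B : Set (Fin n)) → 2 ≤ ∑ i ∈ B, m i := by
  unfold symbPow
  simp only [Submodule.mem_iInf]
  constructor
  · intro h m hm B hB
    exact (mem_pB_sq B f).1 (h _ (pB_mem_minimalPrimes M hE B hB)) m hm
  · intro h p hp
    obtain ⟨B, hB, hle⟩ := exists_base_of_prime M hE p hp.1.1 hp.1.2
    have h1 : p ≤ pB k B := hp.2 ⟨pB_prime B, srIdeal_le M hE B hB⟩ hle
    have h2 : p = pB k B := le_antisymm h1 hle
    rw [h2, mem_pB_sq]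
    exact fun m hm => h m hm B hB

theorem symb_height (M : Matroid (Fin n)) (hE : M.E = Set.univ) (B : Finset (Fin n))
    (hB : M.dual.IsBase (B : Set (Fin n))) :
    (symbPow (srIdeal k M) 2).height = B.card := by
  apply le_antisymm
  · rw [← pB_height (k := k) B]
    apply Ideal.height_mono
    unfold symbPow
    exact (iInf₂_le (pB k B) (pB_mem_minimalPrimes M hE B hB)).trans (Ideal.pow_le_self (by norm_num))
  · rw [Ideal.height_eq_inf_minimalPrimes]
    refine le_iInf₂ fun p hp => ?_
    have hpp : p.IsPrime := hp.1.1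
    have h1 : (srIdeal k M) ^ 2 ≤ symbPow (srIdeal k M) 2 := by
      unfold symbPow
      exact le_iInf₂ fun q hq => Ideal.pow_right_mono hq.1.2 2
    have h2 : srIdeal k M ≤ p := hpp.le_of_pow_le (h1.trans hp.1.2)
    obtain ⟨B', hB', hle⟩ := exists_base_of_prime M hE p hpp h2
    have h3 : B'.card = B.card := by
      have h4 := hB'.ncard_eq_ncard_of_isBase hB
      rwa [Set.ncard_coe_finset, Set.ncard_coe_finset] at h4
    rw [← h3, ← pB_height (k := k) B']
    exact Ideal.height_mono hle

/-! ### the rank function -/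

/-- the rank function of a matroid on a finite type -/
noncomputable def rk (N : Matroid (Fin n)) (X : Finset (Fin n)) : ℕ :=
  (N.eRk (X : Set (Fin n))).toNat

lemma rk_cast (N : Matroid (Fin n)) (X : Finset (Fin n)) :
    ((rk N X : ℕ) : ℕ∞) = N.eRk (X : Set (Fin n)) := by
  unfold rk
  apply ENat.natCast_toNat
  have h1 := N.eRk_le_encard (X : Set (Fin n))
  rw [Set.encard_coe_eq_coe_finsetCard] at h1
  exact ne_top_of_le_ne_top (ENat.natCast_ne_top _) h1

lemma rk_rankFn (N : Matroid (Fin n)) (hE : N.E = Set.univ) : RankFn (rk N) where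
  empty := by
    have h : ((rk N ∅ : ℕ) : ℕ∞) = 0 := by rw [rk_cast]; simp
    exact_mod_cast h
  le_insert := by
    intro v X
    have h : ((rk N X : ℕ) : ℕ∞) ≤ (rk N (insert v X) : ℕ) := by
      rw [rk_cast, rk_cast]
      exact N.eRk_mono (by exact_mod_cast Finset.subset_insert v X)
    exact_mod_cast h
  insert_le := by
    intro v X
    have h : ((rk N (insert v X) : ℕ) : ℕ∞) ≤ (rk N X : ℕ) + 1 := by
      rw [rk_cast, rk_cast, Finset.coe_insert]
      exact N.eRk_insert_le_add_one v X
    exact_mod_cast h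
  insert_eq := by
    intro v X Y hXY hv
    have hcl : v ∈ N.closure (X : Set (Fin n)) := by
      by_contra hcon
      have h1 := N.eRk_insert_eq_add_one (e := v) (X := (X : Set (Fin n)))
        ⟨by rw [hE]; trivial, hcon⟩
      rw [← Finset.coe_insert, ← rk_cast, ← rk_cast, hv] at h1
      have h2 : rk N X = rk N X + 1 := by exact_mod_cast h1
      omega
    have hclY : v ∈ N.closure (Y : Set (Fin n)) :=
      N.closure_subset_closure (by exact_mod_cast hXY) hcl
    have h3 : N.eRk ((insert v Y : Finset (Fin n)) : Set (Fin n)) = N.eRk (Y : Set (Fin n)) := by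
      apply le_antisymm
      · rw [← N.eRk_closure_eq (Y : Set (Fin n))]
        apply N.eRk_mono
        rw [Finset.coe_insert]
        exact Set.insert_subset hclY (N.subset_closure _ (by rw [hE]; exact Set.subset_univ _))
      · exact N.eRk_mono (by exact_mod_cast Finset.subset_insert v Y)
    rw [← rk_cast, ← rk_cast] at h3
    exact_mod_cast h3

lemma rk_univ (N : Matroid (Fin n)) (hE : N.E = Set.univ) (B : Finset (Fin n))
    (hB : N.IsBase (B : Set (Fin n))) : rk N Finset.univ = B.card := by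
  have h1 : ((rk N Finset.univ : ℕ) : ℕ∞) = (B.card : ℕ) := by
    rw [rk_cast, Finset.coe_univ, ← hE, N.eRk_ground, ← hB.encard_eq_eRank,
      Set.encard_coe_eq_coe_finsetCard]
  exact_mod_cast h1

lemma exists_base (N : Matroid (Fin n)) (hE : N.E = Set.univ) (X : Finset (Fin n))
    (h : rk N Finset.univ ≤ rk N X) : ∃ B : Finset (Fin n), B ⊆ X ∧ N.IsBase (B : Set (Fin n)) := by
  have h1 : N.eRank ≤ N.eRk (X : Set (Fin n)) := by
    have h2 : ((rk N Finset.univ : ℕ) : ℕ∞) ≤ (rk N X : ℕ) := by exact_mod_cast h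
    rwa [rk_cast, rk_cast, Finset.coe_univ, ← hE, N.eRk_ground] at h2
  obtain ⟨I, hIX, hI, hIc⟩ := (Matroid.le_eRk_iff (M := N) (n := N.eRank)).1 h1
  have hfin : I.Finite := Set.toFinite I
  obtain ⟨B, rfl⟩ := hfin.exists_finset_coe
  refine ⟨B, by exact_mod_cast hIX, hI.isBase_of_eRk_ge (Set.toFinite _) ?_⟩
  rw [hI.eRk_eq_encard, hIc]

theorem NP_iff (N : Matroid (Fin n)) (hE : N.E = Set.univ) (a : Fin n → ℕ) :
    (¬ ∀ B : Finset (Fin n), N.IsBase (B : Set (Fin n)) → 2 ≤ ∑ i ∈ B, a i) ↔ NP (rk N) a := by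
  have hr := rk_rankFn N hE
  constructor
  · intro h
    push Not at h
    obtain ⟨B, hB, hlt⟩ := h
    have hc := rk_univ N hE B hB
    have hB2 : rk N Finset.univ = rk N B := by
      have h1 : ((rk N B : ℕ) : ℕ∞) = (B.card : ℕ) := by
        rw [rk_cast, hB.indep.eRk_eq_encard, Set.encard_coe_eq_coe_finsetCard]
      rw [hc]
      exact_mod_cast h1.symm
    by_cases h0 : ∀ i ∈ B, a i = 0
    · left
      rw [hB2]
      exact hr.mono fun i hi => (mem_zer a i).2 (h0 i hi)
    · push Not at h0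
      obtain ⟨e, he, hae⟩ := h0
      have h1 : a e + ∑ i ∈ B.erase e, a i = ∑ i ∈ B, a i := Finset.add_sum_erase B a he
      have h2 : ∑ i ∈ B.erase e, a i = 0 := by omega
      right
      refine ⟨e, by omega, ?_⟩
      rw [hB2]
      apply hr.mono
      intro i hi
      by_cases hie : i = e
      · rw [hie]; exact Finset.mem_insert_self _ _
      · apply Finset.mem_insert_of_mem
        rw [mem_zer]
        exact (Finset.sum_eq_zero_iff.1 h2) i (Finset.mem_erase.2 ⟨hie, hi⟩)
  · rintro (h | ⟨e, he, h⟩) hall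
    · obtain ⟨B, hBX, hB⟩ := exists_base N hE _ h
      have h1 := hall B hB
      have h2 : ∑ i ∈ B, a i = 0 := Finset.sum_eq_zero fun i hi => (mem_zer a i).1 (hBX hi)
      omega
    · obtain ⟨B, hBX, hB⟩ := exists_base N hE _ h
      have h1 := hall B hB
      have h2 : ∑ i ∈ B, a i ≤ ∑ i ∈ B, if i = e then 1 else 0 := by
        refine Finset.sum_le_sum fun i hi => ?_
        rcases Finset.mem_insert.1 (hBX hi) with h3 | h3
        · rw [if_pos h3, h3, he]
        · rw [(mem_zer a i).1 h3]; exact Nat.zero_le _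
      rw [Finset.sum_ite_eq'] at h2
      split_ifs at h2 <;> omega

theorem hyperplane_compl (M : Matroid (Fin n)) (hE : M.E = Set.univ) (F : Finset (Fin n))
    (hF : rk M.dual F + 1 = rk M.dual Finset.univ)
    (hF2 : ∀ v ∉ F, rk M.dual (insert v F) = rk M.dual F + 1) :
    M.IsCircuit ((Finset.univ \ F : Finset (Fin n)) : Set (Fin n)) := by
  have hEd : M.dual.E = Set.univ := hE
  have hsp : ∀ X : Finset (Fin n), rk M.dual Finset.univ ≤ rk M.dual X →
      M.dual.Spanning (X : Set (Fin n)) := by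
    intro X hX
    obtain ⟨B, hBX, hB⟩ := exists_base M.dual hEd X hX
    exact hB.spanning.superset (by exact_mod_cast hBX) (by rw [hEd]; exact Set.subset_univ _)
  rw [← Matroid.dual_isCocircuit_iff, Matroid.isCocircuit_iff_minimal_compl_nonspanning,
    Set.minimal_iff_forall_ssubset]
  have hcompl : M.dual.E \ ((Finset.univ \ F : Finset (Fin n)) : Set (Fin n)) = (F : Set (Fin n)) := by
    rw [hEd]
    ext x
    simp
  constructor
  · rw [hcompl]
    intro h
    have h1 := h.eRk_eq
    rw [← M.dual.eRk_ground, hEd, ← Finset.coe_univ, ← rk_cast, ← rk_cast] at h1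
    have h2 : rk M.dual F = rk M.dual Finset.univ := by exact_mod_cast h1
    omega
  · intro X hX
    rw [not_not]
    obtain ⟨v, hv, hvX⟩ := Set.exists_of_ssubset hX
    have hvF : v ∉ F := by
      have := Finset.mem_coe.1 hv
      exact (Finset.mem_sdiff.1 this).2
    have h1 := hsp (insert v F) (by rw [hF2 v hvF]; omega)
    refine h1.superset ?_ Set.sdiff_subset
    intro x hx
    refine ⟨by rw [hEd]; trivial, fun hxX => ?_⟩
    rw [Finset.coe_insert] at hx
    rcases hx with rfl | hx
    · exact hvX hxX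
    · have := hX.subset hxX
      exact (Finset.mem_sdiff.1 (Finset.mem_coe.1 this)).2 hx

/-- The second symbolic power of the Stanley–Reisner ideal of a matroid all of whose circuits have
the same size is level. -/
theorem level_of_equal_circuits (M : Matroid (Fin n)) (hE : M.E = Set.univ)
    (hC : ∀ C C' : Set (Fin n), M.IsCircuit C → M.IsCircuit C' → C.ncard = C'.ncard) :
    IsLevel (symbPow (srIdeal k M) 2) := by
  have hEd : M.dual.E = Set.univ := hE
  have hr := rk_rankFn M.dual hEd
  obtain ⟨s0, hs0⟩ : ∃ s0, ∀ F : Finset (Fin n), rk M.dual F + 1 = rk M.dual Finset.univ →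
      (∀ v ∉ F, rk M.dual (insert v F) = rk M.dual F + 1) → (Finset.univ \ F).card = s0 := by
    by_cases hex : ∃ C, M.IsCircuit C
    · obtain ⟨C, hCc⟩ := hex
      refine ⟨C.ncard, fun F h1 h2 => ?_⟩
      have h3 := hC _ _ (hyperplane_compl M hE F h1 h2) hCc
      rwa [Set.ncard_coe_finset] at h3
    · refine ⟨0, fun F h1 h2 => ?_⟩
      exact absurd ⟨_, hyperplane_compl M hE F h1 h2⟩ hex
  obtain ⟨B, hB⟩ := exists_base M.dual hEd Finset.univ le_rfl
  obtain ⟨-, hB⟩ := hB
  have hc := rk_univ M.dual hEd B hB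
  have hmain := fun α i => main_ex (k := k) hr s0 hs0 α i
  let P : (Fin n → ℕ) → Prop := fun m =>
    ∀ B : Finset (Fin n), M.dual.IsBase (B : Set (Fin n)) → 2 ≤ ∑ i ∈ B, m i
  have hJ : ∀ f : MvPolynomial (Fin n) k, f ∈ symbPow (srIdeal k M) 2 ↔ ∀ m ∈ f.support, P m :=
    fun f => mem_symb M hE f
  have hcong : ∀ (α : Fin n → ℕ) (i : ℕ), Ex k (spt α) (fun σ => NP (rk M.dual) (sb α σ)) i →
      Ex k (spt α) (fun σ => ¬ P (sb α σ)) i := fun α i h =>
    ex_congr _ _ _ _ (fun σ _ => (NP_iff M.dual hEd (sb α σ)).symm) h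
  refine ⟨B.card, jz (rk M.dual) s0, symb_height M hE B hB, fun i hi => ?_, fun j hj => ?_⟩
  · refine torZero_of_ex _ P hJ i fun α => hcong α i (hmain α i (Or.inl ?_))
    rw [hc]; exact hi
  · refine torZeroDeg_of_ex _ P hJ _ j fun α hα => hcong α _ (hmain α _ (Or.inr ⟨hc.symm, ?_⟩))
    rw [hα]; exact hj

end Pool.Agent.R778.SP
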