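import Pool.Agent.R778.SP.ExC

/-!
# Exactness of the strands attached to a matroid rank function (MP_d6b0b9_al)
The proof follows the notes of helper686.
-/

set_option autoImplicit false

namespace Pool.Agent.R778.SP

variable {V : Type*} [LinearOrder V] [Fintype V] {k : Type*} [CommRing k]

/-- matroid rank functions -/
structure RankFn (r : Finset V → ℕ) : Prop where
  empty : r ∅ = 0
  le_insert : ∀ v X, r X ≤ r (insert v X)
  insert_le : ∀ v X, r (insert v X) ≤ r X + 1
  insert_eq : ∀ v X Y, X ⊆ Y → r (insert v X) = r X → r (insert v Y) = r Y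

variable {r : Finset V → ℕ}

omit [Fintype V] in
lemma RankFn.mono (hr : RankFn r) {X Y : Finset V} (h : X ⊆ Y) : r X ≤ r Y := by
  have key : ∀ Z : Finset V, r X ≤ r (X ∪ Z) := by
    intro Z
    induction Z using Finset.induction_on with
    | empty => simp
    | insert a s _ ih =>
      rw [Finset.union_insert]
      exact ih.trans (hr.le_insert _ _)
  have := key Y
  rwa [Finset.union_eq_right.2 h] at this

omit [Fintype V] in
lemma RankFn.exists_incr (hr : RankFn r) {X Y : Finset V} (h : X ⊆ Y) (hlt : r X < r Y) :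
    ∃ e ∈ Y, e ∉ X ∧ r (insert e X) = r X + 1 := by
  by_contra hcon
  push Not at hcon
  have hall : ∀ e ∈ Y, r (insert e X) = r X := by
    intro e he
    by_cases heX : e ∈ X
    · rw [Finset.insert_eq_of_mem heX]
    · have h1 := hcon e he heX
      have h2 := hr.le_insert e X
      have h3 := hr.insert_le e X
      omega
  have key : ∀ Z : Finset V, Z ⊆ Y → r (X ∪ Z) = r X := by
    intro Z
    induction Z using Finset.induction_on with
    | empty => simp
    | insert a s _ ih =>
      intro hs
      rw [Finset.union_insert]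
      have h1 := ih ((Finset.subset_insert a s).trans hs)
      have h2 := hr.insert_eq a X (X ∪ s) Finset.subset_union_left
        (hall a (hs (Finset.mem_insert_self a s)))
      rw [h2, h1]
  have := key Y (Finset.Subset.refl Y)
  rw [Finset.union_eq_right.2 h] at this
  omega

omit [Fintype V] in
/-- the rank lemma -/
theorem rankL (hr : RankFn r) (W : Finset V) : ∀ (Z : Finset V) (s i : ℕ), 1 ≤ i →
    s + 1 ≤ i + r Z → Ex k W (fun σ => s ≤ r (Z ∪ σ)) i := by
  induction W using Finset.induction_on with
  | empty =>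
    intro Z s i hi _ g _
    refine ⟨0, fun σ hσ hc _ => ?_⟩
    rw [Finset.subset_empty] at hσ
    rw [hσ, Finset.card_empty] at hc
    omega
  | insert v W hv ih =>
    intro Z s i hi hs
    by_cases h1 : s ≤ r Z
    · refine ex_cone v W hv _ i fun σ _ => ?_
      exact iff_of_true (h1.trans (hr.mono Finset.subset_union_left))
        (h1.trans (hr.mono Finset.subset_union_left))
    · by_cases h2 : r (insert v Z) = r Z
      · refine ex_cone v W hv _ i fun σ _ => ?_
        rw [Finset.union_insert, hr.insert_eq v Z (Z ∪ σ) Finset.subset_union_left h2]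
      · have h3 := hr.le_insert v Z
        have h4 := hr.insert_le v Z
        obtain ⟨i', rfl⟩ : ∃ i', i = i' + 1 := ⟨i - 1, by omega⟩
        refine ex_el v W hv _ i' (fun σ _ h => h.trans ?_) ?_ (ih Z s (i' + 1) hi hs)
        · rw [Finset.union_insert]
          exact hr.le_insert _ _
        · refine ex_congr W (fun σ => s ≤ r (insert v Z ∪ σ)) _ _ (fun σ _ => ?_)
            (ih (insert v Z) s i' (by omega) (by omega))
          rw [Finset.union_insert, Finset.insert_union]

omit [Fintype V] in
/-- `Q` depends only on the part in `O` -/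
theorem exO (hr : RankFn r) (O Z : Finset V) (c i : ℕ) (hi : 1 ≤ i) (hc : c ≤ i + r Z)
    (V' : Finset V) : Disjoint O V' →
    Ex k (O ∪ V') (fun σ => c ≤ r (Z ∪ (σ ∩ O)) + 1) i := by
  induction V' using Finset.induction_on with
  | empty =>
    intro _
    rw [Finset.union_empty]
    have h1 := rankL (k := k) hr O Z (c - 1) i hi (by omega)
    refine ex_congr O _ _ _ (fun σ hσ => ?_) h1
    rw [Finset.inter_eq_left.2 hσ]
    omega
  | insert v W hv _ =>
    intro hdis
    rw [Finset.disjoint_insert_right] at hdis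
    rw [Finset.union_insert]
    refine ex_cone v (O ∪ W) ?_ _ i fun σ _ => ?_
    · rw [Finset.mem_union, not_or]
      exact ⟨hdis.1, hv⟩
    · rw [Finset.insert_inter_of_notMem hdis.1]

omit [Fintype V] in
theorem exB3 (hr : RankFn r) (O Z : Finset V) (c i : ℕ) (hi : 2 ≤ i) (hc : c + 1 ≤ i + r Z)
    (V' : Finset V) : Disjoint O V' →
    Ex k (O ∪ V') (fun σ => (σ ∩ V').Nonempty ∧ c ≤ r (Z ∪ (σ ∩ O)) + 1) i := by
  induction V' using Finset.induction_on with
  | empty =>
    intro _
    refine ex_empty _ _ _ fun σ _ h => ?_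
    simp at h
  | insert v W hv ih =>
    intro hdis
    rw [Finset.disjoint_insert_right] at hdis
    obtain ⟨i', rfl⟩ : ∃ i', i = i' + 1 := ⟨i - 1, by omega⟩
    rw [Finset.union_insert]
    have hvOW : v ∉ O ∪ W := by
      rw [Finset.mem_union, not_or]
      exact ⟨hdis.1, hv⟩
    have hins : ∀ σ : Finset V, insert v σ ∩ O = σ ∩ O := fun σ =>
      Finset.insert_inter_of_notMem hdis.1
    refine ex_el v (O ∪ W) hvOW _ i' ?_ ?_ ?_
    · rintro σ _ ⟨h1, h2⟩
      refine ⟨⟨v, ?_⟩, ?_⟩
      · simp
      · rw [hins]; exact h2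
    · refine ex_congr (O ∪ W) (fun σ => c ≤ r (Z ∪ (σ ∩ O)) + 1) _ _ (fun σ _ => ?_)
        (exO hr O Z c i' (by omega) (by omega) W hdis.2)
      rw [hins]
      constructor
      · intro h
        exact ⟨⟨v, by simp⟩, h⟩
      · exact fun h => h.2
    · refine ex_congr (O ∪ W) _ _ _ (fun σ hσ => ?_) (ih hdis.2)
      have hvσ : v ∉ σ := fun h => hvOW (hσ h)
      rw [Finset.inter_insert_of_notMem hvσ]

/-- the zeros of `a` -/
def zer (a : V → ℕ) : Finset V := Finset.univ.filter fun v => a v = 0

lemma mem_zer (a : V → ℕ) (w : V) : w ∈ zer a ↔ a w = 0 := by simp [zer]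

/-- some base `B` has `∑ B a ≤ 1`, in terms of the rank -/
def NP (r : Finset V → ℕ) (a : V → ℕ) : Prop :=
  r Finset.univ ≤ r (zer a) ∨ ∃ e, a e = 1 ∧ r Finset.univ ≤ r (insert e (zer a))

/-- `α - 1_σ` -/
def sb (α : V → ℕ) (σ : Finset V) : V → ℕ := fun v => α v - if v ∈ σ then 1 else 0

omit [Fintype V] in
lemma sb_apply (α : V → ℕ) (σ : Finset V) (w : V) :
    sb α σ w = α w - if w ∈ σ then 1 else 0 := rfl

/-- the support -/
def spt (α : V → ℕ) : Finset V := Finset.univ.filter fun v => α v ≠ 0

/-- the degree which is excluded -/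
noncomputable def jz (r : Finset V → ℕ) (s0 : ℕ) : ℕ :=
  if r Finset.univ = 0 then 0 else s0 + (Finset.univ.filter fun v : V => r {v} ≠ 0).card

lemma NP_up (hr : RankFn r) (α : V → ℕ) (σ : Finset V) (v : V) (h : NP r (sb α σ)) :
    NP r (sb α (insert v σ)) := by
  have hle : ∀ w, sb α (insert v σ) w ≤ sb α σ w := by
    intro w
    unfold sb
    by_cases h1 : w ∈ σ
    · simp [h1]
    · simp only [h1, if_false]
      split_ifs <;> omega
  have hz : zer (sb α σ) ⊆ zer (sb α (insert v σ)) := by
    intro w hw
    rw [zer, Finset.mem_filter] at hw ⊢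
    have := hle w
    exact ⟨hw.1, by omega⟩
  rcases h with h | ⟨e, he, h⟩
  · exact Or.inl (h.trans (hr.mono hz))
  · have h1 := hle e
    have h2 : sb α (insert v σ) e = 0 ∨ sb α (insert v σ) e = 1 := by omega
    rcases h2 with h2 | h2
    · left
      refine h.trans (hr.mono ?_)
      refine Finset.insert_subset ?_ hz
      rw [zer, Finset.mem_filter]
      exact ⟨Finset.mem_univ _, h2⟩
    · right
      exact ⟨e, h2, h.trans (hr.mono (Finset.insert_subset_insert e hz))⟩

theorem main_ex (hr : RankFn r) (s0 : ℕ)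
    (hs0 : ∀ F : Finset V, r F + 1 = r Finset.univ → (∀ v ∉ F, r (insert v F) = r F + 1) →
      (Finset.univ \ F).card = s0) (α : V → ℕ) (i : ℕ)
    (hi : r Finset.univ < i ∨ (i = r Finset.univ ∧ ∑ v, α v ≠ jz r s0)) :
    Ex k (spt α) (fun σ => NP r (sb α σ)) i := by
  classical
  set c := r Finset.univ with hc
  have hW : ∀ v, α v ≠ 0 → spt α = insert v ((spt α).erase v) := by
    intro v hv
    rw [Finset.insert_erase]
    rw [spt, Finset.mem_filter]
    exact ⟨Finset.mem_univ _, hv⟩
  -- a cone point
  have cone : ∀ v, α v ≠ 0 → (∀ σ ⊆ (spt α).erase v, NP r (sb α (insert v σ)) → NP r (sb α σ)) →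
      Ex k (spt α) (fun σ => NP r (sb α σ)) i := by
    intro v hv h
    rw [hW v hv]
    exact ex_cone v _ (Finset.notMem_erase v _) _ i
      fun σ hσ => ⟨NP_up hr α σ v, h σ hσ⟩
  rcases Nat.eq_zero_or_pos c with hc0 | hc0
  · -- rank zero
    have hall : ∀ a : V → ℕ, NP r a := fun a => Or.inl (by rw [← hc, hc0]; exact Nat.zero_le _)
    by_cases hα : ∃ v, α v ≠ 0
    · obtain ⟨v, hv⟩ := hα
      exact cone v hv fun σ _ _ => hall _
    · push Not at hα
      have hi1 : 1 ≤ i := by
        rcases hi with h | ⟨_, h⟩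
        · omega
        · exfalso
          apply h
          rw [jz, if_pos (by rw [← hc]; exact hc0)]
          exact Finset.sum_eq_zero fun v _ => hα v
      have hspt : spt α = ∅ := by
        rw [spt, Finset.filter_eq_empty_iff]
        intro v _
        simp [hα v]
      rw [hspt]
      intro g _
      refine ⟨0, fun σ hσ hcard _ => ?_⟩
      rw [Finset.subset_empty] at hσ
      rw [hσ, Finset.card_empty] at hcard
      omega
  -- from now on `1 ≤ c ≤ i`
  have hci : c ≤ i := by
    rcases hi with h | ⟨h, _⟩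
    · exact h.le
    · exact h.ge
  by_cases h3 : ∃ v, 3 ≤ α v
  · obtain ⟨v, hv⟩ := h3
    refine cone v (by omega) fun σ hσ h => ?_
    have hvσ : v ∉ σ := fun h' => (Finset.notMem_erase v _) (hσ h')
    have hz : zer (sb α (insert v σ)) = zer (sb α σ) := by
      ext w
      rw [mem_zer, mem_zer, sb_apply, sb_apply]
      by_cases hwv : w = v
      · subst hwv
        simp only [Finset.mem_insert_self, if_true, hvσ, if_false]
        omega
      · simp only [Finset.mem_insert, hwv, false_or]
    rcases h with h | ⟨e, he, h⟩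
    · left; rwa [hz] at h
    · right
      refine ⟨e, ?_, by rwa [hz] at h⟩
      simp only [sb] at he ⊢
      by_cases hev : e = v
      · subst hev
        simp only [Finset.mem_insert_self, if_true] at he
        omega
      · simpa only [Finset.mem_insert, hev, false_or] using he
  push Not at h3
  set Z : Finset V := Finset.univ.filter fun v => α v = 0 with hZ
  set O : Finset V := Finset.univ.filter fun v => α v = 1 with hO
  set T : Finset V := Finset.univ.filter fun v => α v = 2 with hT
  have hmZ : ∀ v, v ∈ Z ↔ α v = 0 := fun v => by simp [hZ]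
  have hmO : ∀ v, v ∈ O ↔ α v = 1 := fun v => by simp [hO]
  have hmT : ∀ v, v ∈ T ↔ α v = 2 := fun v => by simp [hT]
  have hOT : Disjoint O T := by
    rw [Finset.disjoint_left]
    intro v h1 h2
    rw [hmO] at h1
    rw [hmT] at h2
    omega
  have hspt : spt α = O ∪ T := by
    ext v
    simp only [spt, Finset.mem_filter, Finset.mem_univ, true_and, Finset.mem_union, hmO, hmT]
    have := h3 v
    omega
  have huniv : Z ∪ O ∪ T = Finset.univ := by
    ext v
    simp only [Finset.mem_union, hmZ, hmO, hmT, Finset.mem_univ, iff_true]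
    have := h3 v
    omega
  set F : Finset V := Z ∪ O with hF
  have hzer : ∀ σ, zer (sb α σ) = Z ∪ (σ ∩ O) := by
    intro σ
    ext v
    rw [mem_zer, sb_apply]
    simp only [Finset.mem_union, Finset.mem_inter, hmZ, hmO]
    by_cases hv : v ∈ σ
    · simp only [hv, if_true, true_and]; omega
    · simp only [hv, if_false, false_and, or_false]; omega
  have hone : ∀ σ e, sb α σ e = 1 ↔ (e ∈ O ∧ e ∉ σ) ∨ (e ∈ T ∧ e ∈ σ) := by
    intro σ e
    rw [hmO, hmT]
    unfold sb
    by_cases hv : e ∈ σ
    · simp only [hv, if_true, not_true_eq_false, and_false, false_or, and_true]; omega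
    · simp only [hv, if_false, not_false_eq_true, and_true, and_false, or_false]; omega
  have hNP : ∀ σ, NP r (sb α σ) ↔ (c ≤ r (Z ∪ (σ ∩ O)) ∨
      (∃ e ∈ O, e ∉ σ ∧ c ≤ r (insert e (Z ∪ (σ ∩ O)))) ∨
      (∃ e ∈ T, e ∈ σ ∧ c ≤ r (insert e (Z ∪ (σ ∩ O))))) := by
    intro σ
    unfold NP
    rw [hzer]
    constructor
    · rintro (h | ⟨e, he, h⟩)
      · exact Or.inl h
      · rcases (hone σ e).1 he with ⟨h1, h2⟩ | ⟨h1, h2⟩
        · exact Or.inr (Or.inl ⟨e, h1, h2, h⟩)
        · exact Or.inr (Or.inr ⟨e, h1, h2, h⟩)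
    · rintro (h | ⟨e, h1, h2, h⟩ | ⟨e, h1, h2, h⟩)
      · exact Or.inl h
      · exact Or.inr ⟨e, (hone σ e).2 (Or.inl ⟨h1, h2⟩), h⟩
      · exact Or.inr ⟨e, (hone σ e).2 (Or.inr ⟨h1, h2⟩), h⟩
  have hsubF : ∀ σ : Finset V, Z ∪ (σ ∩ O) ⊆ F := fun σ =>
    Finset.union_subset_union (Finset.Subset.refl _) Finset.inter_subset_right
  have hlec : ∀ X : Finset V, r X ≤ c := fun X => hr.mono (Finset.subset_univ X)
  by_cases hA : ∃ v ∈ T, r (insert v F) = r F
  · -- (A)
    obtain ⟨v, hvT, hvF⟩ := hA
    have hvα : α v = 2 := (hmT v).1 hvT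
    have hvO : v ∉ O := fun h => by rw [hmO] at h; omega
    refine cone v (by omega) fun σ hσ h => ?_
    rw [hNP] at h ⊢
    have hins : insert v σ ∩ O = σ ∩ O := Finset.insert_inter_of_notMem hvO
    rw [hins] at h
    rcases h with h | ⟨e, h1, h2, h⟩ | ⟨e, h1, h2, h⟩
    · exact Or.inl h
    · exact Or.inr (Or.inl ⟨e, h1, fun h' => h2 (Finset.mem_insert_of_mem h'), h⟩)
    · rcases Finset.mem_insert.1 h2 with rfl | h2
      · -- e = v
        have h5 : c ≤ r F := by
          rw [← hvF]
          exact h.trans (hr.mono (Finset.insert_subset_insert e (hsubF σ)))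
        by_cases h6 : c ≤ r (Z ∪ (σ ∩ O))
        · exact Or.inl h6
        · obtain ⟨e', he'F, he'X, he'⟩ := hr.exists_incr (hsubF σ) (by omega)
          have h7 := hr.insert_le e (Z ∪ (σ ∩ O))
          refine Or.inr (Or.inl ⟨e', ?_, ?_, by omega⟩)
          · rcases Finset.mem_union.1 he'F with h8 | h8
            · exact absurd (Finset.mem_union_left _ h8) he'X
            · exact h8
          · intro h8
            rcases Finset.mem_union.1 he'F with h9 | h9
            · exact absurd (Finset.mem_union_left _ h9) he'X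
            · exact he'X (Finset.mem_union_right _ (Finset.mem_inter.2 ⟨h8, h9⟩))
      · exact Or.inr (Or.inr ⟨e, h1, h2, h⟩)
  push Not at hA
  have hinc : ∀ v ∈ T, r (insert v F) = r F + 1 := by
    intro v hv
    have h1 := hA v hv
    have h2 := hr.le_insert v F
    have h4 := hr.insert_le v F
    omega
  by_cases hTe : T = ∅
  · -- (C)
    have hFu : F = Finset.univ := by rw [← huniv, hTe, Finset.union_empty]
    rw [hspt, hTe, Finset.union_empty]
    refine ex_congr O (fun σ => c - 1 ≤ r (Z ∪ σ)) _ _ (fun σ hσ => ?_)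
      (rankL hr O Z (c - 1) i (by omega) (by omega))
    rw [hNP, Finset.inter_eq_left.2 hσ, hTe]
    constructor
    · intro h
      by_cases h6 : c ≤ r (Z ∪ σ)
      · exact Or.inl h6
      · have hsub : Z ∪ σ ⊆ F := Finset.union_subset_union (Finset.Subset.refl _) hσ
        obtain ⟨e', he'F, he'X, he'⟩ := hr.exists_incr hsub (by rw [hFu]; omega)
        refine Or.inr (Or.inl ⟨e', ?_, ?_, by omega⟩)
        · rcases Finset.mem_union.1 he'F with h8 | h8
          · exact absurd (Finset.mem_union_left _ h8) he'X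
          · exact h8
        · exact fun h8 => he'X (Finset.mem_union_right _ h8)
    · rintro (h | ⟨e, h1, h2, h⟩ | ⟨e, h1, h2, h⟩)
      · omega
      · have := hr.insert_le e (Z ∪ σ)
        omega
      · simp at h1
  obtain ⟨t0, ht0⟩ := Finset.nonempty_iff_ne_empty.2 hTe
  have hrF : r F + 1 ≤ c := by
    rw [← hinc t0 ht0]
    exact hlec _
  have hNP2 : ∀ σ, NP r (sb α σ) ↔ ∃ e ∈ T, e ∈ σ ∧ c ≤ r (insert e (Z ∪ (σ ∩ O))) := by
    intro σ
    rw [hNP]
    constructor
    · rintro (h | ⟨e, h1, h2, h⟩ | h)
      · have := hr.mono (hsubF σ)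
        omega
      · have h5 : insert e (Z ∪ (σ ∩ O)) ⊆ F :=
          Finset.insert_subset (Finset.mem_union_right _ h1) (hsubF σ)
        have := hr.mono h5
        omega
      · exact h
    · exact fun h => Or.inr (Or.inr h)
  by_cases hrF2 : r F + 2 ≤ c
  · -- EMPTY
    refine ex_empty _ _ _ fun σ _ h => ?_
    obtain ⟨e, h1, h2, h⟩ := (hNP2 σ).1 h
    have h5 := hr.insert_le e (Z ∪ (σ ∩ O))
    have h6 := hr.mono (hsubF σ)
    omega
  have hrFc : r F + 1 = c := by omega
  have hNP3 : ∀ σ, NP r (sb α σ) ↔ ((σ ∩ T).Nonempty ∧ c ≤ r (Z ∪ (σ ∩ O)) + 1) := by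
    intro σ
    rw [hNP2]
    constructor
    · rintro ⟨e, h1, h2, h⟩
      have h5 := hr.insert_le e (Z ∪ (σ ∩ O))
      exact ⟨⟨e, Finset.mem_inter.2 ⟨h2, h1⟩⟩, by omega⟩
    · rintro ⟨⟨e, he⟩, h⟩
      obtain ⟨h2, h1⟩ := Finset.mem_inter.1 he
      refine ⟨e, h1, h2, ?_⟩
      have h5 := hr.insert_le e (Z ∪ (σ ∩ O))
      have h6 := hr.le_insert e (Z ∪ (σ ∩ O))
      have h7 : r (insert e (Z ∪ (σ ∩ O))) ≠ r (Z ∪ (σ ∩ O)) := by
        intro h8
        exact hA e h1 (hr.insert_eq e _ F (hsubF σ) h8)
      omega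
  by_cases hloop : ∃ v ∈ O, r {v} = 0
  · -- (B1)
    obtain ⟨v, hvO, hv0⟩ := hloop
    have hvα : α v = 1 := (hmO v).1 hvO
    have hvT : v ∉ T := fun h => by rw [hmT] at h; omega
    refine cone v (by omega) fun σ hσ h => ?_
    rw [hNP3] at h ⊢
    have h1 : insert v σ ∩ T = σ ∩ T := Finset.insert_inter_of_notMem hvT
    have h2 : insert v σ ∩ O = insert v (σ ∩ O) := Finset.insert_inter_of_mem hvO
    have h4 : r (insert v (Z ∪ (σ ∩ O))) = r (Z ∪ (σ ∩ O)) := by
      refine hr.insert_eq v ∅ _ (Finset.empty_subset _) ?_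
      rw [hr.empty]
      exact hv0
    rw [h1, h2, Finset.union_insert, h4] at h
    exact h
  push Not at hloop
  have hkey : 2 ≤ i ∧ c + 1 ≤ i + r Z := by
    rcases hi with h | ⟨h, hdeg⟩
    · omega
    · by_cases hZ0 : r Z = 0
      · -- (B2) : excluded degree
        exfalso
        apply hdeg
        have hloops : (Finset.univ.filter fun v : V => r {v} ≠ 0) = O ∪ T := by
          ext v
          simp only [Finset.mem_filter, Finset.mem_univ, true_and, Finset.mem_union]
          constructor
          · intro h1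
            by_contra h2
            rw [not_or] at h2
            have h4 : v ∈ Z := by
              have : v ∈ Z ∪ O ∪ T := by rw [huniv]; exact Finset.mem_univ v
              rcases Finset.mem_union.1 this with h5 | h5
              · rcases Finset.mem_union.1 h5 with h6 | h6
                · exact h6
                · exact absurd h6 h2.1
              · exact absurd h5 h2.2
            have h5 := hr.mono (Finset.singleton_subset_iff.2 h4)
            omega
          · rintro (h1 | h1)
            · exact hloop v h1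
            · intro h2
              apply hA v h1
              refine hr.insert_eq v ∅ F (Finset.empty_subset _) ?_
              rw [hr.empty]
              exact h2
        have hcompl : (Finset.univ \ F).card = s0 := by
          refine hs0 F (by rw [hrFc]) fun v hv => ?_
          apply hinc
          have : v ∈ F ∪ T := by rw [huniv]; exact Finset.mem_univ v
          exact (Finset.mem_union.1 this).resolve_left hv
        have hcomplT : Finset.univ \ F = T := by
          ext v
          simp only [Finset.mem_sdiff, Finset.mem_univ, true_and]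
          constructor
          · intro h1
            have : v ∈ F ∪ T := by rw [huniv]; exact Finset.mem_univ v
            exact (Finset.mem_union.1 this).resolve_left h1
          · intro h1 h2
            rw [hmT] at h1
            rcases Finset.mem_union.1 h2 with h4 | h4
            · rw [hmZ] at h4; omega
            · rw [hmO] at h4; omega
        rw [jz, if_neg (by rw [← hc]; omega), hloops, Finset.card_union_of_disjoint hOT, ← hcompl,
          hcomplT]
        have hsum : ∑ v, α v = ∑ v, ((if v ∈ O then 1 else 0) + (if v ∈ T then 2 else 0)) := by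
          refine Finset.sum_congr rfl fun v _ => ?_
          simp only [hmO, hmT]
          have := h3 v
          split_ifs <;> omega
        rw [hsum, Finset.sum_add_distrib, Finset.sum_ite_mem, Finset.sum_ite_mem,
          Finset.univ_inter, Finset.univ_inter, Finset.sum_const, Finset.sum_const]
        simp only [smul_eq_mul]
        ring
      · have h5 : r Z ≤ r F := hr.mono Finset.subset_union_left
        omega
  rw [hspt]
  exact ex_congr _ _ _ _ (fun σ _ => (hNP3 σ).symm) (exB3 hr O Z c i hkey.1 hkey.2 T hOT)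

end Pool.Agent.R778.SP
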